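import Pool.Agent.Helper63.PL.Goals

set_option autoImplicit false

/-!
# The centres of the positive and negative peaks are different
-/

open MeasureTheory Set
open scoped ENNReal ContDiff

namespace Pool.Agent.Helper85.PL

open Pool.Agent.Helper63.PL

theorem exists_norm {N : ℕ} (hN : 0 < N) {t : ℝ} (ht : 0 ≤ t) : ∃ y : E N, ‖y‖ = t := by
  refine ⟨EuclideanSpace.single ⟨0, hN⟩ t, ?_⟩
  rw [PiLp.norm_single, Real.norm_eq_abs, abs_of_nonneg ht]

/-- Points near the boundary of the support. -/
theorem bd {N : ℕ} (hN : 0 < N) {K B : ℝ} (hK : 0 < K) (hB : 0 < B) {f : E N → ℝ}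
    (hL : ∀ x y, |f x - f y| ≤ K * ‖x - y‖) (h0 : ∀ x, B < ‖x‖ → f x = 0) (x : E N)
    (hx : ‖x‖ ≤ B) : |f x| ≤ K * (B - ‖x‖) := by
  have key : ∀ t, B < t → |f x| ≤ K * (t - ‖x‖) := by
    intro t ht
    have ht0 : 0 < t := hB.trans ht
    obtain ⟨y, hy, hxy⟩ : ∃ y : E N, ‖y‖ = t ∧ ‖x - y‖ = t - ‖x‖ := by
      by_cases hx0 : x = 0
      · obtain ⟨y, hy⟩ := exists_norm hN ht0.le
        refine ⟨y, hy, ?_⟩
        rw [hx0, zero_sub, norm_neg, hy, norm_zero, sub_zero]
      · have hn : 0 < ‖x‖ := norm_pos_iff.2 hx0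
        refine ⟨(t / ‖x‖) • x, ?_, ?_⟩
        · rw [norm_smul, Real.norm_eq_abs, abs_of_pos (div_pos ht0 hn), div_mul_cancel₀ _ hn.ne']
        · have : x - (t / ‖x‖) • x = (1 - t / ‖x‖) • x := by rw [sub_smul, one_smul]
          rw [this, norm_smul, Real.norm_eq_abs, abs_of_nonpos, neg_sub, sub_mul,
            div_mul_cancel₀ _ hn.ne', one_mul]
          rw [sub_nonpos, le_div_iff₀ hn]
          linarith
    have h1 := hL x y
    rw [h0 y (by rw [hy]; exact ht), sub_zero, hxy] at h1
    exact h1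
  by_contra hcon
  push Not at hcon
  have hd : 0 < |f x| - K * (B - ‖x‖) := by linarith
  have := key (B + (|f x| - K * (B - ‖x‖)) / (2 * K)) (by
    have : 0 < (|f x| - K * (B - ‖x‖)) / (2 * K) := by positivity
    linarith)
  have h2 : K * (B + (|f x| - K * (B - ‖x‖)) / (2 * K) - ‖x‖) =
      K * (B - ‖x‖) + (|f x| - K * (B - ‖x‖)) / 2 := by
    field_simp
    ring
  rw [h2] at this
  linarith

/-- The peaks of a function. -/
theorem peak {N : ℕ} {B h : ℝ} (hh : 0 ≤ h) {φ : E N → ℝ} (hc : Continuous φ)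
    (h0 : ∀ x, B < ‖x‖ → φ x = 0) (hs : h < ⨆ x, φ x) :
    Continuous (fun x => max (φ x - h) 0) ∧ HasCompactSupport (fun x => max (φ x - h) 0) ∧
      (∃ x, 0 < max (φ x - h) 0) ∧ 0 < ∫ x, max (φ x - h) 0 := by
  have c1 : Continuous (fun x => max (φ x - h) 0) := (hc.sub continuous_const).max continuous_const
  have c2 : HasCompactSupport (fun x => max (φ x - h) 0) := by
    refine HasCompactSupport.intro (isCompact_closedBall (0 : E N) B) fun x hx => ?_
    rw [Metric.mem_closedBall, dist_zero_right, not_le] at hx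
    rw [h0 x hx, zero_sub]
    exact max_eq_right (by linarith)
  obtain ⟨x, hx⟩ := exists_lt_of_lt_ciSup hs
  have c3 : 0 < max (φ x - h) 0 := lt_max_of_lt_left (by linarith)
  refine ⟨c1, c2, ⟨x, c3⟩, ?_⟩
  exact c1.integral_pos_of_hasCompactSupport_nonneg_nonzero c2 (fun x => le_max_right _ _) c3.ne'

theorem ph : PhStmt := by
  intro N hN κ K B m hκ hκ1 hK hB hm hs f hL h0 hfm hM hcen
  set s : ℝ := m * (1 - κ) / K with hsdef
  have hκ' : 0 < 1 - κ := by linarith
  have hs0 : 0 < s := by positivity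
  have hKs : K * s = m * (1 - κ) := by
    rw [hsdef]
    field_simp
  have hcont : Continuous f := by
    have : LipschitzWith (Real.toNNReal K) f := LipschitzWith.of_dist_le_mul fun x y => by
      rw [Real.dist_eq, dist_eq_norm, Real.coe_toNNReal _ hK.le]
      exact hL x y
    exact this.continuous
  -- boundedness
  have hbd : ∀ x, |f x| ≤ K * B := by
    intro x
    by_cases hx : ‖x‖ ≤ B
    · refine (bd hN hK hB hL h0 x hx).trans (mul_le_mul_of_nonneg_left ?_ hK.le)
      linarith [norm_nonneg x]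
    · rw [h0 x (not_le.1 hx), abs_zero]
      positivity
  have hba : BddAbove (Set.range f) := ⟨K * B, by
    rintro _ ⟨x, rfl⟩
    exact (le_abs_self _).trans (hbd x)⟩
  have hba' : BddAbove (Set.range fun x => - f x) := ⟨K * B, by
    rintro _ ⟨x, rfl⟩
    exact (neg_le_abs _).trans (hbd x)⟩
  set M : ℝ := Mx f with hMdef
  have hMm : m ≤ M := by
    obtain ⟨x, hx⟩ := hfm
    rcases le_abs.1 hx with h | h
    · exact h.trans (le_ciSup hba x)
    · rw [hM]
      exact h.trans (le_ciSup hba' x)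
  have hM0 : 0 < M := hm.trans_le hMm
  set h : ℝ := (1 - κ) * M with hh
  have hh0 : 0 < h := by positivity
  have hhm : K * s ≤ h := by
    rw [hKs, hh, mul_comm]
    exact mul_le_mul_of_nonneg_left hMm hκ'.le
  have hhM : h < M := by
    rw [hh, sub_mul, one_mul]
    have : 0 < κ * M := by positivity
    linarith
  obtain ⟨p1, p2, ⟨x₀, p3⟩, p4⟩ := peak hh0.le hcont h0 (h := h) (by exact hhM)
  obtain ⟨q1, q2, _, q4⟩ := peak (φ := fun x => - f x) hh0.le hcont.neg
    (fun x hx => by rw [h0 x hx, neg_zero]) (h := h) (by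
      have : M = ⨆ x, - f x := hM
      rw [← this]
      exact hhM)
  -- geometry
  have geo : ∀ x, h < |f x| → ‖x‖ ≤ B - s := by
    intro x hx
    have hxB : ‖x‖ ≤ B := by
      by_contra hcon
      rw [h0 x (not_le.1 hcon), abs_zero] at hx
      linarith
    have h1 := bd hN hK hB hL h0 x hxB
    have h2 : K * s ≤ K * (B - ‖x‖) := by linarith
    have h3 := le_of_mul_le_mul_left h2 hK
    linarith
  have pos1 : ∀ x, 0 < max (f x - h) 0 → h < f x := by
    intro x hx
    rcases lt_max_iff.1 hx with h1 | h1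
    · linarith
    · exact absurd h1 (lt_irrefl _)
  have pos2 : ∀ x, 0 < max (- f x - h) 0 → h < - f x := by
    intro x hx
    rcases lt_max_iff.1 hx with h1 | h1
    · linarith
    · exact absurd h1 (lt_irrefl _)
  set c : ℝ := 2 * s ^ 2 - (B - s) ^ 2 with hc
  have hBs : 0 ≤ B - s := (norm_nonneg x₀).trans (geo x₀ ((pos1 x₀ p3).trans_le (le_abs_self _)))
  have hc0 : 0 < c := by
    have h2 : √2 * √2 = 2 := Real.mul_self_sqrt (by norm_num)
    have h3 : 0 ≤ √2 := Real.sqrt_nonneg 2
    have h4 : B < (√2 + 1) * s := by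
      have : (√2 + 1) * ((√2 - 1) * B) < (√2 + 1) * s :=
        mul_lt_mul_of_pos_left hs (by positivity)
      have h5 : (√2 + 1) * ((√2 - 1) * B) = B := by
        have : (√2 + 1) * ((√2 - 1) * B) = (√2 * √2 - 1) * B := by ring
        rw [this, h2]
        ring
      linarith
    have h6 : B - s < √2 * s := by
      have : (√2 + 1) * s = √2 * s + s := by ring
      linarith
    have h7 : (B - s) ^ 2 < (√2 * s) ^ 2 := pow_lt_pow_left₀ h6 hBs (by norm_num)
    have h8 : (√2 * s) ^ 2 = 2 * s ^ 2 := by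
      rw [mul_pow, pow_two (√2), h2]
    linarith
  have inn : ∀ x y, 0 < max (f x - h) 0 → 0 < max (- f y - h) 0 → inner ℝ x y ≤ - c := by
    intro x y hx hy
    have hx1 := pos1 x hx
    have hy1 := pos2 y hy
    have gx := geo x (hx1.trans_le (le_abs_self _))
    have gy := geo y (hy1.trans_le (neg_le_abs _))
    have h1 : K * (2 * s) ≤ K * ‖x - y‖ := by
      have := (le_abs_self _).trans (hL x y)
      linarith
    have h2 := le_of_mul_le_mul_left h1 hK
    have h3 : ‖x - y‖ ^ 2 = ‖x‖ ^ 2 - 2 * inner ℝ x y + ‖y‖ ^ 2 := norm_sub_sq_real x y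
    have h4 : (2 * s) ^ 2 ≤ ‖x - y‖ ^ 2 := pow_le_pow_left₀ (by positivity) h2 2
    have h5 : ‖x‖ ^ 2 ≤ (B - s) ^ 2 := pow_le_pow_left₀ (norm_nonneg _) gx 2
    have h6 : ‖y‖ ^ 2 ≤ (B - s) ^ 2 := pow_le_pow_left₀ (norm_nonneg _) gy 2
    rw [hc]
    nlinarith
  -- the centres
  have hC1 : cen κ f = ∫ x, (max (f x - h) 0) • x := rfl
  have hC2 : cen κ (fun x => - f x) = ∫ x, (max (- f x - h) 0) • x := by
    unfold cen
    rw [← hM]
  have i1 : Integrable (fun x : E N => (max (f x - h) 0) • x) :=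
    (p1.smul continuous_id).integrable_of_hasCompactSupport p2.smul_right
  have i2 : Integrable (fun x : E N => (max (- f x - h) 0) • x) :=
    (q1.smul continuous_id).integrable_of_hasCompactSupport q2.smul_right
  have j1 : Integrable (fun x : E N => max (f x - h) 0) := p1.integrable_of_hasCompactSupport p2
  have j2 : Integrable (fun x : E N => max (- f x - h) 0) := q1.integrable_of_hasCompactSupport q2
  set C : E N := cen κ f with hCdef
  set I₁ : ℝ := ∫ x, max (f x - h) 0 with hI1
  set I₂ : ℝ := ∫ x, max (- f x - h) 0 with hI2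
  have hy : ∀ y, 0 < max (- f y - h) 0 → inner ℝ C y ≤ - c * I₁ := by
    intro y hy
    rw [real_inner_comm, hC1, ← integral_inner i1 y, hI1, ← integral_const_mul]
    refine integral_mono ?_ (j1.const_mul _) ?_
    · exact i1.const_inner y
    · intro x
      change inner ℝ y ((max (f x - h) 0) • x) ≤ - c * max (f x - h) 0
      rw [inner_smul_right]
      rcases (le_max_right (f x - h) 0).eq_or_lt with h1 | h1
      · rw [← h1]
        simp
      · have := inn x y h1 hy
        rw [real_inner_comm, mul_comm]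
        exact mul_le_mul_of_nonneg_right this h1.le
  have hfin : inner ℝ C C ≤ - c * I₁ * I₂ := by
    have h1 : inner ℝ C C = inner ℝ C (∫ x, (max (- f x - h) 0) • x) := by
      rw [← hC2, ← hcen]
    rw [h1, ← integral_inner i2 C, hI2, ← integral_const_mul]
    refine integral_mono ?_ (j2.const_mul _) ?_
    · exact i2.const_inner C
    · intro y
      change inner ℝ C ((max (- f y - h) 0) • y) ≤ - c * I₁ * max (- f y - h) 0
      rw [inner_smul_right]
      rcases (le_max_right (- f y - h) 0).eq_or_lt with h1 | h1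
      · rw [← h1]
        simp
      · have := hy y h1
        rw [mul_comm]
        exact mul_le_mul_of_nonneg_right this h1.le
  have hpos : 0 < c * I₁ * I₂ := by positivity
  have := real_inner_self_nonneg (F := E N) (x := C)
  nlinarith

end Pool.Agent.Helper85.PL
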